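import Mathlib
import Pool.Agent.Y371.Bent.Main

/-!
# Sums of bent functions
-/

set_option autoImplicit false

namespace Pool.Agent.Results.MP_b90951_co.VanishingProportion

open Finset Filter

/-- The set `B_n` of the bent functions in `n` variables (`n` even): all Walsh-Hadamard
coefficients have absolute value `2^(n/2)`. -/
def bentSet (n : ℕ) : Set ((Fin n → ZMod 2) → ZMod 2) :=
  {f | ∀ a : Fin n → ZMod 2,
    |∑ x : Fin n → ZMod 2, (-1 : ℤ) ^ ((f x + ∑ i, a i * x i).val)| = 2 ^ (n / 2)}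

/-- The set of the sums of `k` bent functions; `bentSums 2 n` is the set `X_n` of the problem. -/
def bentSums (k n : ℕ) : Set ((Fin n → ZMod 2) → ZMod 2) :=
  {ψ | ∃ f : Fin k → ((Fin n → ZMod 2) → ZMod 2), (∀ j, f j ∈ bentSet n) ∧ ψ = ∑ j, f j}

/-- The set of the Boolean functions in `n` variables of algebraic degree at most `n/2`. -/
def lowDeg (n : ℕ) : Set ((Fin n → ZMod 2) → ZMod 2) :=
  {f | ∃ p : MvPolynomial (Fin n) (ZMod 2), p.totalDegree ≤ n / 2 ∧
    ∀ x, MvPolynomial.eval x p = f x}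

/-- For all `k` and all even `n ≥ 2`:
(1) at most `2^(1015 k 2^n / n^(1/12))` Boolean functions in `n` variables are sums of `k` bent
functions;
(2) this is at most the proportion `2^(-(2^(n-1) - 1015 k 2^n / n^(1/12)))` of the number of
functions of degree at most `n/2`;
(3) if `k ≤ n^(1/12) / 4060`, this proportion is at most `2^(-2^(n-2))`. -/
theorem result (k n : ℕ) (hn : 2 ≤ n) (he : Even n) :
    (((bentSums k n).ncard : ℝ) ≤
      2 ^ ((k : ℝ) * (1015 * (2 ^ n / (n : ℝ) ^ ((1 : ℝ) / 12))))) ∧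
    (((bentSums k n).ncard : ℝ) ≤
      2 ^ ((k : ℝ) * (1015 * (2 ^ n / (n : ℝ) ^ ((1 : ℝ) / 12))) - 2 ^ n / 2) *
        ((lowDeg n).ncard : ℝ)) ∧
    ((k : ℝ) ≤ (n : ℝ) ^ ((1 : ℝ) / 12) / 4060 →
      ((bentSums k n).ncard : ℝ) ≤ 2 ^ (-((2 : ℝ) ^ n / 4)) * ((lowDeg n).ncard : ℝ)) := by
  have h2 := Pool.Agent.Y371.Bent.proportion (k := k) (n := n) (by omega) he
  refine ⟨Pool.Agent.Y371.Bent.bentSums_le (by omega) he, h2, ?_⟩
  intro hk
  refine h2.trans ?_
  apply mul_le_mul_of_nonneg_right _ (Nat.cast_nonneg _)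
  apply Real.rpow_le_rpow_of_exponent_le (by norm_num)
  have hnr : (0 : ℝ) < n := by exact_mod_cast (by omega : 0 < n)
  have hp : 0 < (n : ℝ) ^ ((1 : ℝ) / 12) := Real.rpow_pos_of_pos hnr _
  have h3 : (k : ℝ) * (1015 * (2 ^ n / (n : ℝ) ^ ((1 : ℝ) / 12))) ≤ 2 ^ n / 4 := by
    calc (k : ℝ) * (1015 * (2 ^ n / (n : ℝ) ^ ((1 : ℝ) / 12)))
        ≤ ((n : ℝ) ^ ((1 : ℝ) / 12) / 4060) * (1015 * (2 ^ n / (n : ℝ) ^ ((1 : ℝ) / 12))) :=
          mul_le_mul_of_nonneg_right hk (by positivity)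
      _ = 2 ^ n / 4 := by
          field_simp
          norm_num
  linarith

end Pool.Agent.Results.MP_b90951_co.VanishingProportion
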